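import Mathlib

/-!
Finite Baire classes, finite additive Borel classes, and the hierarchy theorem on Cantor space.
-/

namespace Pool.Agent.P.MP_1441be_gt

open Set Filter Topology

section General

variable {X : Type*} [TopologicalSpace X]

/-- `n`-fold iterated pointwise limits of continuous functions. -/
def BaireCl : ℕ → (X → ℝ) → Prop
  | 0, f => Continuous f
  | n + 1, f => ∃ u : ℕ → X → ℝ, (∀ k, BaireCl n (u k)) ∧
      ∀ x, Tendsto (fun k => u k x) atTop (𝓝 (f x))

/-- `Sig n` is the additive Borel class of level `n + 1`. -/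
def Sig : ℕ → Set X → Prop
  | 0, s => IsOpen s
  | n + 1, s => ∃ u : ℕ → Set X, (∀ k, Sig n (u k)) ∧ s = ⋃ k, (u k)ᶜ

theorem BaireCl.succ : ∀ {n : ℕ} {f : X → ℝ}, BaireCl n f → BaireCl (n + 1) f := by
  intro n f hf
  exact ⟨fun _ => f, fun _ => hf, fun _ => tendsto_const_nhds⟩

theorem BaireCl.mono {n m : ℕ} {f : X → ℝ} (hf : BaireCl n f) (h : n ≤ m) : BaireCl m f := by
  induction h with
  | refl => exact hf
  | step _ ih => exact ih.succ

theorem baireCl_of_continuous {n : ℕ} {f : X → ℝ} (hf : Continuous f) : BaireCl n f :=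
  BaireCl.mono (n := 0) hf (Nat.zero_le _)

theorem BaireCl.binop (φ : ℝ × ℝ → ℝ) (hφ : Continuous φ) :
    ∀ {n : ℕ} {f g : X → ℝ}, BaireCl n f → BaireCl n g → BaireCl n (fun x => φ (f x, g x))
  | 0, _, _, hf, hg => hφ.comp (Continuous.prodMk hf hg)
  | _ + 1, f, g, ⟨u, hu, hu'⟩, ⟨v, hv, hv'⟩ =>
    ⟨fun k x => φ (u k x, v k x), fun k => BaireCl.binop φ hφ (hu k) (hv k), fun x =>
      (hφ.tendsto (f x, g x)).comp ((hu' x).prodMk_nhds (hv' x))⟩

theorem sig_iUnion_nat : ∀ {n : ℕ} (s : ℕ → Set X), (∀ k, Sig n (s k)) → Sig n (⋃ k, s k)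
  | 0, _, hs => isOpen_iUnion hs
  | n + 1, s, hs => by
    choose u hu hu' using hs
    refine ⟨fun k => u k.unpair.1 k.unpair.2, fun k => hu _ _, ?_⟩
    ext x
    simp only [mem_iUnion]
    constructor
    · rintro ⟨i, hi⟩
      rw [hu' i] at hi
      obtain ⟨j, hj⟩ := mem_iUnion.1 hi
      exact ⟨Nat.pair i j, by simpa using hj⟩
    · rintro ⟨k, hk⟩
      refine ⟨k.unpair.1, ?_⟩
      rw [hu']
      exact mem_iUnion.2 ⟨_, hk⟩

theorem sig_empty_univ : ∀ n : ℕ, Sig n (∅ : Set X) ∧ Sig n (univ : Set X)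
  | 0 => ⟨isOpen_empty, isOpen_univ⟩
  | n + 1 => ⟨⟨fun _ => univ, fun _ => (sig_empty_univ n).2, by simp⟩,
      ⟨fun _ => ∅, fun _ => (sig_empty_univ n).1, by simp [iUnion_const]⟩⟩

theorem sig_union {n : ℕ} {s t : Set X} (hs : Sig n s) (ht : Sig n t) : Sig n (s ∪ t) := by
  have : s ∪ t = ⋃ k : ℕ, if k = 0 then s else t := by
    ext x
    simp only [mem_union, mem_iUnion]
    constructor
    · rintro (h | h)
      · exact ⟨0, by simpa using h⟩
      · exact ⟨1, by simpa using h⟩
    · rintro ⟨k, hk⟩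
      split_ifs at hk
      · exact Or.inl hk
      · exact Or.inr hk
  rw [this]
  refine sig_iUnion_nat _ fun k => ?_
  split_ifs
  · exact hs
  · exact ht

theorem sig_inter : ∀ {n : ℕ} {s t : Set X}, Sig n s → Sig n t → Sig n (s ∩ t)
  | 0, _, _, hs, ht => IsOpen.inter hs ht
  | n + 1, s, t, ⟨u, hu, hu'⟩, ⟨v, hv, hv'⟩ => by
    refine ⟨fun k => u k.unpair.1 ∪ v k.unpair.2, fun k => sig_union (hu _) (hv _), ?_⟩
    rw [hu', hv']
    ext x
    simp only [mem_inter_iff, mem_iUnion, mem_compl_iff, mem_union, not_or]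
    constructor
    · rintro ⟨⟨i, hi⟩, ⟨j, hj⟩⟩
      exact ⟨Nat.pair i j, by simpa using hi, by simpa using hj⟩
    · rintro ⟨k, h1, h2⟩
      exact ⟨⟨_, h1⟩, ⟨_, h2⟩⟩

theorem sig_biInter_finset {n : ℕ} {ι : Type*} (F : Finset ι) (s : ι → Set X)
    (hs : ∀ i, Sig n (s i)) : Sig n (⋂ i ∈ F, s i) := by
  classical
  induction F using Finset.induction_on with
  | empty => simpa using (sig_empty_univ n).2
  | insert a F _ ih =>
    rw [Finset.set_biInter_insert]
    exact sig_inter (hs a) ih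

theorem sig_biUnion_countable {n : ℕ} {ι : Type*} {T : Set ι} (hT : T.Countable) (s : ι → Set X)
    (hs : ∀ i, Sig n (s i)) : Sig n (⋃ i ∈ T, s i) := by
  rcases T.eq_empty_or_nonempty with rfl | hne
  · simpa using (sig_empty_univ n).1
  · obtain ⟨f, rfl⟩ := hT.exists_eq_range hne
    rw [biUnion_range]
    exact sig_iUnion_nat _ fun k => hs _

theorem BaireCl.sig_preimage : ∀ {n : ℕ} {f : X → ℝ}, BaireCl n f → ∀ {U : Set ℝ}, IsOpen U →
    Sig n (f ⁻¹' U)
  | 0, _, hf, _, hU => hU.preimage hf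
  | n + 1, f, ⟨u, hu, hu'⟩, U, hU => by
    refine ⟨fun j => ⋃ k : ℕ, u (k + j.unpair.2) ⁻¹'
      (Metric.thickening (1 / ((j.unpair.1 : ℝ) + 1)) Uᶜ),
      fun j => sig_iUnion_nat _ fun k => (hu _).sig_preimage Metric.isOpen_thickening, ?_⟩
    ext x
    simp only [mem_preimage, mem_iUnion, mem_compl_iff, not_exists]
    constructor
    · intro hx
      have h1 : f x ∉ closure Uᶜ := by
        rw [hU.isClosed_compl.closure_eq]
        simpa using hx
      rw [Metric.closure_eq_iInter_cthickening] at h1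
      simp only [mem_iInter, not_forall] at h1
      obtain ⟨δ, hδ, h1⟩ := h1
      obtain ⟨j, hj⟩ := exists_nat_one_div_lt hδ
      have h2 : (Metric.cthickening δ Uᶜ)ᶜ ∈ 𝓝 (f x) :=
        Metric.isClosed_cthickening.isOpen_compl.mem_nhds h1
      obtain ⟨N, hN⟩ := eventually_atTop.1 ((hu' x).eventually h2)
      refine ⟨Nat.pair j N, fun k hk => ?_⟩
      simp only [Nat.unpair_pair] at hk
      exact hN (k + N) (Nat.le_add_left _ _)
        (Metric.thickening_subset_cthickening_of_le hj.le _ hk)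
    · rintro ⟨j, hj⟩
      by_contra hx
      have hpos : (0 : ℝ) < 1 / ((j.unpair.1 : ℝ) + 1) := by positivity
      have h1 : f x ∈ Metric.thickening (1 / ((j.unpair.1 : ℝ) + 1)) Uᶜ :=
        Metric.self_subset_thickening hpos _ hx
      obtain ⟨N, hN⟩ := eventually_atTop.1
        ((hu' x).eventually (Metric.isOpen_thickening.mem_nhds h1))
      exact hj N (hN _ (Nat.le_add_right _ _))

open Classical in
/-- The real indicator function of a set. -/
noncomputable def ind (s : Set X) (x : X) : ℝ := if x ∈ s then 1 else 0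

theorem baireCl_ind_compl {n : ℕ} {s : Set X} (hs : BaireCl n (ind s)) : BaireCl n (ind sᶜ) := by
  have := BaireCl.binop (fun p => 1 - p.1) (by fun_prop) hs hs
  convert this using 2 with x
  by_cases h : x ∈ s <;> simp [ind, h]

theorem baireCl_ind_union {n : ℕ} {s t : Set X} (hs : BaireCl n (ind s))
    (ht : BaireCl n (ind t)) : BaireCl n (ind (s ∪ t)) := by
  have := BaireCl.binop (fun p => p.1 + p.2 - p.1 * p.2) (by fun_prop) hs ht
  convert this using 2 with x
  by_cases h : x ∈ s <;> by_cases h' : x ∈ t <;> simp [ind, h, h']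

theorem baireCl_ind_iUnion {n : ℕ} (s : ℕ → Set X) (hs : ∀ k, BaireCl n (ind (s k))) :
    BaireCl (n + 1) (ind (⋃ k, s k)) := by
  refine ⟨fun k => ind (⋃ i ∈ Finset.range k, s i), fun k => ?_, fun x => ?_⟩
  · beta_reduce
    induction k with
    | zero =>
      refine baireCl_of_continuous ?_
      have : ind (⋃ i ∈ Finset.range 0, s i) = fun _ => (0 : ℝ) := by
        ext x
        simp [ind]
      rw [this]
      exact continuous_const
    | succ k ih =>
      rw [Finset.range_add_one, Finset.set_biUnion_insert]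
      exact baireCl_ind_union (hs k) ih
  · by_cases hx : x ∈ ⋃ k, s k
    · obtain ⟨i, hi⟩ := mem_iUnion.1 hx
      refine tendsto_const_nhds.congr' ?_
      filter_upwards [eventually_gt_atTop i] with k hk
      have : x ∈ ⋃ i ∈ Finset.range k, s i := by
        simp only [mem_iUnion]
        exact ⟨i, Finset.mem_range.2 hk, hi⟩
      simp only [ind, hx, this, if_true]
    · refine tendsto_const_nhds.congr fun k => ?_
      have : x ∉ ⋃ i ∈ Finset.range k, s i := by
        intro h
        simp only [mem_iUnion] at h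
        obtain ⟨i, -, hi⟩ := h
        exact hx (mem_iUnion.2 ⟨i, hi⟩)
      simp only [ind, hx, this, if_false]

theorem continuous_ind {s : Set X} (hs : IsClopen s) : Continuous (ind s) := by
  classical
  unfold ind
  refine continuous_if ?_ continuousOn_const continuousOn_const
  intro a ha
  have : frontier {x | x ∈ s} = ∅ := hs.frontier_eq
  rw [this] at ha
  exact ha.elim

/-- The tree of approximants of a function of finite Baire class. -/
theorem BaireCl.exists_tree : ∀ {m : ℕ} {g : X → ℝ}, BaireCl m g →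
    ∃ G : List ℕ → X → ℝ, G [] = g ∧ (∀ l : List ℕ, l.length = m → Continuous (G l)) ∧
      ∀ l : List ℕ, l.length < m → ∀ x,
        Tendsto (fun k => G (l ++ [k]) x) atTop (𝓝 (G l x))
  | 0, g, hg => ⟨fun _ => g, rfl, fun _ _ => hg, fun _ h => absurd h (Nat.not_lt_zero _)⟩
  | m + 1, g, ⟨u, hu, hu'⟩ => by
    choose G h0 h1 h2 using fun k => (hu k).exists_tree
    refine ⟨fun l => match l with
      | [] => g
      | k :: l => G k l, rfl, ?_, ?_⟩
    · rintro (_ | ⟨k, l⟩) hl
      · simp at hl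
      · exact h1 k l (by simpa using hl)
    · rintro (_ | ⟨k, l⟩) hl x
      · simpa [h0] using hu' x
      · exact h2 k l (by simpa using hl) x

end General

section Cantor

/-- Universal sets built from a sequence `B` of basic sets. -/
def univSet (B : ℕ → Set (ℕ → Bool)) : ℕ → (ℕ → Bool) → Set (ℕ → Bool)
  | 0, p => ⋃ i, {x | p i = true ∧ x ∈ B i}
  | n + 1, p => ⋃ k, (univSet B n fun i => p (Nat.pair k i))ᶜ

theorem exists_clopen_basis : ∃ B : ℕ → Set (ℕ → Bool), (∀ i, IsClopen (B i)) ∧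
    ∀ U : Set (ℕ → Bool), IsOpen U → ∀ x ∈ U, ∃ i, x ∈ B i ∧ B i ⊆ U := by
  obtain ⟨s, hs, hsc, hsb⟩ := (isTopologicalBasis_isClopen (X := ℕ → Bool)).exists_countable
  have hne : s.Nonempty := by
    obtain ⟨t, ht, -⟩ := hsb.exists_subset_of_mem_open (mem_univ (fun _ => true)) isOpen_univ
    exact ⟨t, ht⟩
  obtain ⟨B, rfl⟩ := hsc.exists_eq_range hne
  refine ⟨B, fun i => hs ⟨i, rfl⟩, fun U hU x hx => ?_⟩
  obtain ⟨t, ⟨i, rfl⟩, h1, h2⟩ := hsb.exists_subset_of_mem_open hx hU
  exact ⟨i, h1, h2⟩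

theorem univSet_surj (B : ℕ → Set (ℕ → Bool))
    (hB : ∀ U : Set (ℕ → Bool), IsOpen U → ∀ x ∈ U, ∃ i, x ∈ B i ∧ B i ⊆ U) :
    ∀ (n : ℕ) (s : Set (ℕ → Bool)), Sig n s → ∃ p, univSet B n p = s
  | 0, s, hs => by
    classical
    refine ⟨fun i => decide (B i ⊆ s), ?_⟩
    ext x
    simp only [univSet, mem_iUnion, mem_ofPred_eq, decide_eq_true_eq]
    constructor
    · rintro ⟨i, h1, h2⟩
      exact h1 h2
    · intro hx
      obtain ⟨i, h1, h2⟩ := hB s hs x hx
      exact ⟨i, h2, h1⟩
  | n + 1, s, ⟨u, hu, hu'⟩ => by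
    choose p hp using fun k => univSet_surj B hB n (u k) (hu k)
    refine ⟨fun j => p j.unpair.1 j.unpair.2, ?_⟩
    rw [hu']
    simp only [univSet, Nat.unpair_pair, hp]

theorem baireCl_univSet (B : ℕ → Set (ℕ → Bool)) (hB : ∀ i, IsClopen (B i)) :
    ∀ (n : ℕ) (π : (ℕ → Bool) → ℕ → Bool), Continuous π →
      BaireCl (n + 1) (ind {x | x ∈ univSet B n (π x)})
  | 0, π, hπ => by
    have : {x | x ∈ univSet B 0 (π x)} = ⋃ i, ({x | π x i = true} ∩ B i) := by
      ext x
      simp [univSet]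
    rw [this]
    refine baireCl_ind_iUnion _ fun i => continuous_ind (IsClopen.inter ?_ (hB i))
    exact (isClopen_discrete {true}).preimage ((continuous_apply i).comp hπ)
  | n + 1, π, hπ => by
    have : {x | x ∈ univSet B (n + 1) (π x)} =
        ⋃ k, {x | x ∈ univSet B n fun i => π x (Nat.pair k i)}ᶜ := by
      ext x
      simp [univSet]
    rw [this]
    refine baireCl_ind_iUnion _ fun k => baireCl_ind_compl ?_
    exact baireCl_univSet B hB n (fun x i => π x (Nat.pair k i))
      (continuous_pi fun i => (continuous_apply _).comp hπ)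

/-- The hierarchy theorem in the form needed. -/
theorem exists_not_sig (n : ℕ) :
    ∃ A : Set (ℕ → Bool), ¬ Sig n A ∧ BaireCl (n + 1) (ind A) := by
  obtain ⟨B, hB1, hB2⟩ := exists_clopen_basis
  refine ⟨{x | x ∈ univSet B n x}ᶜ, fun h => ?_,
    baireCl_ind_compl (baireCl_univSet B hB1 n id continuous_id)⟩
  obtain ⟨p, hp⟩ := univSet_surj B hB2 n _ h
  have : p ∈ univSet B n p ↔ p ∉ univSet B n p := by
    conv_lhs => rw [hp]
    simp
  exact iff_not_self this

end Cantor

end Pool.Agent.P.MP_1441be_gt
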