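import Mathlib
import Pool.Agent.P.MP_1441be_gt.Baire

/-!
Separately continuous functions on the grid `(ℕ ∪ {∞})^m` and their multilinear extension to the
cube around a diagonal point.
-/

namespace Pool.Agent.P.MP_1441be_gt

open Set Filter Topology

/-- Separate continuity on the grid `(ℕ ∪ {∞})^m`, with `none` as the point at infinity. -/
def GridSC {m : ℕ} (F : (Fin m → Option ℕ) → ℝ) : Prop :=
  ∀ (κ : Fin m → Option ℕ) (i : Fin m),
    Tendsto (fun k : ℕ => F (Function.update κ i (some k))) atTop
      (𝓝 (F (Function.update κ i none)))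

/-- The multiset of finite coordinates contributed by one coordinate. -/
def ms : Option ℕ → Multiset ℕ
  | none => 0
  | some k => {k}

theorem card_ms_le (o : Option ℕ) : (ms o).card ≤ 1 := by
  cases o <;> simp [ms]

theorem exists_grid {X : Type*} [TopologicalSpace X] {m : ℕ} {g : X → ℝ} (hg : BaireCl m g) :
    ∃ F : X → (Fin m → Option ℕ) → ℝ, (∀ x, F x (fun _ => none) = g x) ∧
      (∀ κ : Fin m → Option ℕ, (∀ i, κ i ≠ none) → Continuous fun x => F x κ) ∧
      ∀ x, GridSC (F x) := by
  classical
  obtain ⟨G, h0, h1, h2⟩ := hg.exists_tree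
  refine ⟨fun x κ => G ((∑ i, ms (κ i)).sort (· ≥ ·)).reverse x, fun x => ?_, fun κ hκ => ?_,
    fun x κ i => ?_⟩
  · simp [ms, h0]
  · apply h1
    rw [List.length_reverse, Multiset.length_sort, Multiset.card_sum]
    have : ∀ i, (ms (κ i)).card = 1 := by
      intro i
      have := hκ i
      cases h : κ i with
      | none => exact absurd h this
      | some k => simp [ms]
    simp [this]
  · set M : Multiset ℕ := ∑ j ∈ Finset.univ.erase i, ms (κ j) with hM
    have e : ∀ o : Option ℕ, ∑ j, ms (Function.update κ i o j) = ms o + M := by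
      intro o
      rw [← Finset.add_sum_erase _ _ (Finset.mem_univ i), Function.update_self, hM]
      congr 1
      refine Finset.sum_congr rfl fun j hj => ?_
      rw [Function.update_of_ne (Finset.ne_of_mem_erase hj)]
    have hlen : ((M.sort (· ≥ ·)).reverse).length < m := by
      rw [List.length_reverse, Multiset.length_sort, hM, Multiset.card_sum]
      calc ∑ j ∈ Finset.univ.erase i, (ms (κ j)).card
          ≤ ∑ j ∈ Finset.univ.erase i, 1 := Finset.sum_le_sum fun j _ => card_ms_le _
        _ < m := by
          have := i.pos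
          simp
          omega
    have := h2 _ hlen x
    simp only [e]
    have e0 : ms none + M = M := by simp [ms]
    rw [e0]
    refine this.congr' ?_
    filter_upwards [eventually_ge_atTop M.sup] with k hk
    have e1 : ms (some k) + M = k ::ₘ M := by simp [ms]
    have e2 : (k ::ₘ M).sort (· ≥ ·) = k :: M.sort (· ≥ ·) := by
      apply Multiset.sort_cons
      intro b hb
      exact le_trans (Multiset.le_sup hb) hk
    rw [e1, e2, List.reverse_cons]

/-- Piecewise linear interpolation of a sequence. -/
noncomputable def interp (u : ℕ → ℝ) (s : ℝ) : ℝ :=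
  (1 - (s - ⌊s⌋₊)) * u ⌊s⌋₊ + (s - ⌊s⌋₊) * u (⌊s⌋₊ + 1)

theorem interp_continuousOn_Icc (u : ℕ → ℝ) (k : ℕ) :
    ContinuousOn (interp u) (Icc (k : ℝ) (k + 1)) := by
  have hc : Continuous fun s : ℝ => (1 - (s - k)) * u k + (s - k) * u (k + 1) := by fun_prop
  refine hc.continuousOn.congr fun s hs => ?_
  rcases hs.2.lt_or_eq with h | h
  · have : ⌊s⌋₊ = k := (Nat.floor_eq_iff (le_trans (Nat.cast_nonneg k) hs.1)).2 ⟨hs.1, h⟩
    simp only [interp, this]
  · have : ⌊s⌋₊ = k + 1 := by
      rw [h]
      exact_mod_cast Nat.floor_natCast (R := ℝ) (k + 1)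
    simp only [interp, this]
    rw [h]
    push_cast
    ring

theorem interp_continuousOn_Icc_zero (u : ℕ → ℝ) (k : ℕ) :
    ContinuousOn (interp u) (Icc (0 : ℝ) (k + 1)) := by
  induction k with
  | zero => simpa using interp_continuousOn_Icc u 0
  | succ k ih =>
    have h := ih.union_of_isClosed (interp_continuousOn_Icc u (k + 1)) isClosed_Icc isClosed_Icc
    refine h.mono fun s hs => ?_
    rcases le_total s (k + 1) with h' | h'
    · exact Or.inl ⟨hs.1, h'⟩
    · exact Or.inr ⟨by push_cast; exact h', hs.2⟩

theorem interp_continuousAt (u : ℕ → ℝ) {s : ℝ} (hs : 0 < s) : ContinuousAt (interp u) s := by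
  refine (interp_continuousOn_Icc_zero u ⌊s⌋₊).continuousAt ?_
  exact Icc_mem_nhds hs (Nat.lt_floor_add_one s)

theorem interp_tendsto {u : ℕ → ℝ} {l : ℝ} (hu : Tendsto u atTop (𝓝 l)) :
    Tendsto (interp u) atTop (𝓝 l) := by
  have h1 : Tendsto (fun s : ℝ => |u ⌊s⌋₊ - l|) atTop (𝓝 0) := by
    have := ((hu.comp (tendsto_nat_floor_atTop (α := ℝ))).sub_const l).abs
    simpa using this
  have h2 : Tendsto (fun s : ℝ => |u (⌊s⌋₊ + 1) - l|) atTop (𝓝 0) := by
    have := (((hu.comp (tendsto_add_atTop_nat 1)).comp
      (tendsto_nat_floor_atTop (α := ℝ))).sub_const l).abs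
    simpa using this
  have h3 := h1.add h2
  rw [add_zero] at h3
  rw [tendsto_iff_norm_sub_tendsto_zero]
  refine squeeze_zero' (Eventually.of_forall fun _ => norm_nonneg _) ?_ h3
  filter_upwards [eventually_ge_atTop (0 : ℝ)] with s hs
  have a1 : 0 ≤ s - ⌊s⌋₊ := sub_nonneg.2 (Nat.floor_le hs)
  have a2 : s - ⌊s⌋₊ ≤ 1 := by linarith [Nat.lt_floor_add_one s]
  have e : interp u s - l =
      (1 - (s - ⌊s⌋₊)) * (u ⌊s⌋₊ - l) + (s - ⌊s⌋₊) * (u (⌊s⌋₊ + 1) - l) := by
    unfold interp
    ring
  rw [Real.norm_eq_abs, e]
  refine (abs_add_le _ _).trans (add_le_add ?_ ?_)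
  · rw [abs_mul, abs_of_nonneg (by linarith : 0 ≤ 1 - (s - ⌊s⌋₊))]
    exact mul_le_of_le_one_left (abs_nonneg _) (by linarith)
  · rw [abs_mul, abs_of_nonneg a1]
    exact mul_le_of_le_one_left (abs_nonneg _) a2

/-- Inverse distance to the centre. -/
noncomputable def invd (a t : unitInterval) : ℝ := |(t : ℝ) - a|⁻¹

open Classical in
/-- The two grid points used at `t`. -/
noncomputable def pt (a t : unitInterval) (c : Bool) : Option ℕ :=
  if t = a then none else some (if c then ⌊invd a t⌋₊ + 1 else ⌊invd a t⌋₊)

/-- The two weights used at `t`. -/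
noncomputable def wt (a t : unitInterval) (c : Bool) : ℝ :=
  if c then invd a t - ⌊invd a t⌋₊ else 1 - (invd a t - ⌊invd a t⌋₊)

theorem wt_sum (a t : unitInterval) : ∑ c, wt a t c = 1 := by
  simp [wt]

theorem continuous_ext1 (a : unitInterval) (u : Option ℕ → ℝ)
    (hu : Tendsto (fun k : ℕ => u (some k)) atTop (𝓝 (u none))) :
    Continuous fun t : unitInterval => ∑ c, wt a t c * u (pt a t c) := by
  have key : ∀ t : unitInterval, t ≠ a →
      ∑ c, wt a t c * u (pt a t c) = interp (fun k => u (some k)) (invd a t) := by
    intro t ht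
    simp only [Fintype.sum_bool, wt, pt, ht, if_false, if_true, interp, Bool.false_eq_true]
    ring
  have key0 : ∑ c, wt a a c * u (pt a a c) = u none := by
    simp [wt, pt, invd]
  rw [continuous_iff_continuousAt]
  intro t
  by_cases ht : t = a
  · subst ht
    rw [continuousAt_iff_punctured_nhds, key0]
    have h1 : Tendsto (invd t) (𝓝[≠] t) atTop := by
      refine tendsto_inv_nhdsGT_zero.comp ?_
      rw [tendsto_nhdsWithin_iff]
      constructor
      · have : Continuous fun s : unitInterval => |(s : ℝ) - t| := by fun_prop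
        have h := (this.tendsto t).mono_left (nhdsWithin_le_nhds (s := {t}ᶜ))
        simpa using h
      · filter_upwards [self_mem_nhdsWithin] with s hs
        have : (s : ℝ) - t ≠ 0 := sub_ne_zero.2 fun h => hs (Subtype.ext h)
        exact abs_pos.2 this
    refine ((interp_tendsto hu).comp h1).congr' ?_
    filter_upwards [self_mem_nhdsWithin] with s hs
    exact (key s hs).symm
  · have hne : |(t : ℝ) - a| ≠ 0 :=
      abs_ne_zero.2 (sub_ne_zero.2 fun h => ht (Subtype.ext h))
    have h1 : ContinuousAt (invd a) t := by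
      have : Continuous fun s : unitInterval => |(s : ℝ) - a| := by fun_prop
      exact this.continuousAt.inv₀ hne
    have h2 : 0 < invd a t := inv_pos.2 (lt_of_le_of_ne (abs_nonneg _) hne.symm)
    refine ((interp_continuousAt (fun k => u (some k)) h2).comp h1).congr ?_
    filter_upwards [isOpen_ne.mem_nhds ht] with s hs
    exact (key s hs).symm

/-- The multilinear extension of a grid function to the cube, centred at `(a, …, a)`. -/
noncomputable def extend {m : ℕ} (a : unitInterval) (F : (Fin m → Option ℕ) → ℝ)
    (z : Fin m → unitInterval) : ℝ :=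
  ∑ b : Fin m → Bool, (∏ i, wt a (z i) (b i)) * F (fun i => pt a (z i) (b i))

theorem extend_centre {m : ℕ} (a : unitInterval) (F : (Fin m → Option ℕ) → ℝ) :
    extend a F (fun _ => a) = F (fun _ => none) := by
  classical
  have : ∀ c, pt a a c = none := fun c => by simp [pt]
  simp only [extend, this]
  rw [← Finset.sum_mul]
  have h := Finset.prod_univ_sum (fun _ : Fin m => (Finset.univ : Finset Bool))
    (fun _ c => wt a a c)
  rw [Fintype.piFinset_univ] at h
  rw [← h]
  simp only [wt_sum, Finset.prod_const_one, one_mul]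

theorem sum_eq_half_sum_update {m : ℕ} (i : Fin m) (f : (Fin m → Bool) → ℝ) :
    ∑ b, f b = (1 / 2) * ∑ b : Fin m → Bool, ∑ c, f (Function.update b i c) := by
  classical
  have hinv : Function.Involutive fun b : Fin m → Bool => Function.update b i (!b i) := by
    intro b
    simp
  have h1 : ∑ b, f b = ∑ b : Fin m → Bool, f (Function.update b i (!b i)) :=
    (Equiv.sum_comp hinv.toPerm f).symm
  have h2 : ∀ b : Fin m → Bool,
      ∑ c, f (Function.update b i c) = f b + f (Function.update b i (!b i)) := by
    intro b
    rw [Fintype.sum_bool]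
    cases h : b i
    · rw [add_comm]
      congr 2
      rw [← h, Function.update_eq_self]
    · congr 2
      rw [← h, Function.update_eq_self]
  simp only [h2]
  rw [Finset.sum_add_distrib, ← h1]
  ring

theorem extend_sepCont {m : ℕ} (a : unitInterval) {F : (Fin m → Option ℕ) → ℝ} (hF : GridSC F)
    (i : Fin m) (z : Fin m → unitInterval) :
    Continuous fun t : unitInterval => extend a F (Function.update z i t) := by
  classical
  have key : ∀ t : unitInterval, extend a F (Function.update z i t) =
      (1 / 2) * ∑ b : Fin m → Bool, (∏ j ∈ Finset.univ.erase i, wt a (z j) (b j)) *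
        ∑ c, wt a t c * F (Function.update (fun j => pt a (z j) (b j)) i (pt a t c)) := by
    intro t
    unfold extend
    rw [sum_eq_half_sum_update i]
    congr 1
    refine Finset.sum_congr rfl fun b _ => ?_
    rw [Finset.mul_sum]
    refine Finset.sum_congr rfl fun c _ => ?_
    rw [← Finset.mul_prod_erase _ _ (Finset.mem_univ i)]
    have e1 : ∏ j ∈ Finset.univ.erase i,
        wt a (Function.update z i t j) (Function.update b i c j) =
        ∏ j ∈ Finset.univ.erase i, wt a (z j) (b j) := by
      refine Finset.prod_congr rfl fun j hj => ?_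
      have := Finset.ne_of_mem_erase hj
      rw [Function.update_of_ne this, Function.update_of_ne this]
    have e2 : (fun j => pt a (Function.update z i t j) (Function.update b i c j)) =
        Function.update (fun j => pt a (z j) (b j)) i (pt a t c) := by
      ext1 j
      by_cases hj : j = i
      · subst hj
        simp
      · simp [Function.update_of_ne hj]
    rw [e1, e2]
    simp only [Function.update_self]
    ring
  simp only [key]
  refine continuous_const.mul (continuous_finsetSum _ fun b _ => continuous_const.mul ?_)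
  exact continuous_ext1 a (fun o => F (Function.update (fun j => pt a (z j) (b j)) i o)) (hF _ i)

theorem continuous_extend {X : Type*} [TopologicalSpace X] {m : ℕ} (a : unitInterval)
    (F : X → (Fin m → Option ℕ) → ℝ) (z : Fin m → unitInterval)
    (h : ∀ b : Fin m → Bool, Continuous fun x => F x (fun i => pt a (z i) (b i))) :
    Continuous fun x => extend a (F x) z := by
  unfold extend
  exact continuous_finsetSum _ fun b _ => continuous_const.mul (h b)

theorem pt_ne_none {a t : unitInterval} (h : t ≠ a) (c : Bool) : pt a t c ≠ none := by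
  simp [pt, h]

end Pool.Agent.P.MP_1441be_gt
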