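import Mathlib
import Pool.Agent.P.MP_1441be_gt.Extend

/-!
Factorization through countably many coordinates, Baire class of evaluations, and the final
argument.
-/

namespace Pool.Agent.P.MP_1441be_gt

open Set Filter Topology

section Factor

variable {A : Type*}

theorem exists_basic {w : A → ℝ} {U : Set (A → ℝ)} (hU : U ∈ 𝓝 w) :
    ∃ (F : Finset A) (δ : ℝ), 0 < δ ∧ ∀ v : A → ℝ, (∀ z ∈ F, |v z - w z| < δ) → v ∈ U := by
  classical
  rw [nhds_pi, Filter.mem_pi'] at hU
  obtain ⟨F, t, ht, hsub⟩ := hU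
  have : ∀ z, ∃ ε > 0, Metric.ball (w z) ε ⊆ t z := fun z => Metric.mem_nhds_iff.1 (ht z)
  choose ε hε hε' using this
  rcases F.eq_empty_or_nonempty with rfl | hne
  · exact ⟨∅, 1, one_pos, fun v _ => hsub (by simp)⟩
  · refine ⟨F, F.inf' hne ε, (Finset.lt_inf'_iff hne).2 fun z _ => hε z, fun v hv => hsub ?_⟩
    intro z hz
    apply hε'
    rw [Metric.mem_ball, Real.dist_eq]
    exact (hv z hz).trans_le (Finset.inf'_le _ hz)

theorem isOpen_basic (w : A → ℝ) (F : Finset A) (δ : ℝ) :
    IsOpen {v : A → ℝ | ∀ z ∈ F, |v z - w z| < δ} := by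
  have : {v : A → ℝ | ∀ z ∈ F, |v z - w z| < δ} = ⋂ z ∈ F, {v : A → ℝ | |v z - w z| < δ} := by
    ext v
    simp
  rw [this]
  exact isOpen_biInter_finset fun z _ => isOpen_lt (by fun_prop) continuous_const

theorem exists_basic_subtype {p : (A → ℝ) → Prop} {φ : Subtype p → ℝ} (hφ : Continuous φ)
    (y : Subtype p) {ε : ℝ} (hε : 0 < ε) :
    ∃ (F : Finset A) (δ : ℝ), 0 < δ ∧
      ∀ v : Subtype p, (∀ z ∈ F, |v.1 z - y.1 z| < δ) → |φ v - φ y| < ε := by
  have h1 : φ ⁻¹' Metric.ball (φ y) ε ∈ 𝓝 y := hφ.continuousAt (Metric.ball_mem_nhds _ hε)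
  rw [nhds_induced, Filter.mem_comap] at h1
  obtain ⟨U, hU, hU'⟩ := h1
  obtain ⟨F, δ, hδ, h⟩ := exists_basic hU
  refine ⟨F, δ, hδ, fun v hv => ?_⟩
  have := hU' (h v.1 hv)
  simpa [Real.dist_eq] using this

/-- A continuous real function on a separable dense subspace of a power of the line is continuous
for pointwise convergence on a countable set of coordinates. -/
theorem exists_countable_factor {p : (A → ℝ) → Prop} [TopologicalSpace.SeparableSpace (Subtype p)]
    (hd : Dense {v | p v}) {φ : Subtype p → ℝ} (hφ : Continuous φ) :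
    ∃ B : Set A, B.Countable ∧ ∀ (y : Subtype p) (ε : ℝ), 0 < ε →
      ∃ (F : Finset A) (δ : ℝ), (F : Set A) ⊆ B ∧ 0 < δ ∧
        ∀ v : Subtype p, (∀ z ∈ F, |v.1 z - y.1 z| < δ) → |φ v - φ y| ≤ ε := by
  classical
  obtain ⟨Q, hQc, hQd⟩ := TopologicalSpace.exists_countable_dense (Subtype p)
  have hpos : ∀ k : ℕ, (0 : ℝ) < 1 / ((k : ℝ) + 1) := fun k => by positivity
  choose FF δδ hδδ hFF using fun (q : Subtype p) (k : ℕ) => exists_basic_subtype hφ q (hpos k)
  refine ⟨⋃ q ∈ Q, ⋃ k : ℕ, (FF q k : Set A),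
    hQc.biUnion fun q _ => countable_iUnion fun k => (FF q k).countable_toSet, ?_⟩
  set B : Set A := ⋃ q ∈ Q, ⋃ k : ℕ, (FF q k : Set A) with hB
  intro y ε hε
  obtain ⟨F, δ, hδ, hF⟩ := exists_basic_subtype hφ y hε
  refine ⟨F.filter (· ∈ B), δ, fun z hz => (Finset.mem_filter.1 hz).2, hδ, fun v hv => ?_⟩
  by_contra hcon
  push Not at hcon
  obtain ⟨k, hk⟩ := exists_nat_one_div_lt (sub_pos.2 hcon)
  have hO : IsOpen ({u : Subtype p | ∀ z ∈ F.filter (· ∈ B), |u.1 z - y.1 z| < δ} ∩
      {u : Subtype p | ε + 1 / ((k : ℝ) + 1) < |φ u - φ y|}) := by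
    refine IsOpen.inter ?_ (isOpen_lt continuous_const (by fun_prop))
    exact (isOpen_basic y.1 _ δ).preimage continuous_subtype_val
  obtain ⟨q, ⟨hq1, hq2⟩, hqQ⟩ := hQd.inter_open_nonempty _ hO
    ⟨v, hv, by simp only [mem_ofPred_eq]; linarith⟩
  have hsub : ∀ z ∈ FF q k, z ∈ B := fun z hz =>
    mem_biUnion hqQ (mem_iUnion.2 ⟨k, hz⟩)
  let w : A → ℝ := fun z => if z ∈ B then q.1 z else y.1 z
  have hO' : IsOpen ({u : A → ℝ | ∀ z ∈ FF q k, |u z - q.1 z| < δδ q k} ∩
      {u : A → ℝ | ∀ z ∈ F, |u z - y.1 z| < δ}) :=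
    (isOpen_basic _ _ _).inter (isOpen_basic _ _ _)
  have hw : w ∈ ({u : A → ℝ | ∀ z ∈ FF q k, |u z - q.1 z| < δδ q k} ∩
      {u : A → ℝ | ∀ z ∈ F, |u z - y.1 z| < δ}) := by
    constructor
    · intro z hz
      simp [w, hsub z hz, hδδ]
    · intro z hz
      by_cases hzB : z ∈ B
      · simp only [w, hzB, if_true]
        exact hq1 z (Finset.mem_filter.2 ⟨hz, hzB⟩)
      · simp [w, hzB, hδ]
  obtain ⟨u, ⟨hu1, hu2⟩, hup⟩ := hd.inter_open_nonempty _ hO' ⟨w, hw⟩
  have e1 := hFF q k ⟨u, hup⟩ hu1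
  have e2 := hF ⟨u, hup⟩ hu2
  have e3 : ε + 1 / ((k : ℝ) + 1) < |φ q - φ y| := hq2
  have e4 := abs_sub_le (φ q) (φ ⟨u, hup⟩) (φ y)
  rw [abs_sub_comm] at e1
  linarith

theorem continuous_of_factor {p : (A → ℝ) → Prop} {φ : Subtype p → ℝ} {B : Set A}
    (hB : ∀ (y : Subtype p) (ε : ℝ), 0 < ε →
      ∃ (F : Finset A) (δ : ℝ), (F : Set A) ⊆ B ∧ 0 < δ ∧
        ∀ v : Subtype p, (∀ z ∈ F, |v.1 z - y.1 z| < δ) → |φ v - φ y| ≤ ε)
    {X : Type*} [TopologicalSpace X] (h : X → Subtype p)
    (hh : ∀ z ∈ B, Continuous fun x => (h x).1 z) : Continuous fun x => φ (h x) := by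
  rw [continuous_iff_continuousAt]
  intro x
  rw [ContinuousAt, Metric.tendsto_nhds]
  intro ε hε
  obtain ⟨F, δ, hFB, hδ, hF⟩ := hB (h x) (ε / 2) (half_pos hε)
  have : ∀ᶠ x' in 𝓝 x, ∀ z ∈ F, |(h x').1 z - (h x).1 z| < δ := by
    rw [Filter.eventually_all_finset]
    intro z hz
    have := (Metric.tendsto_nhds.1 ((hh z (hFB hz)).tendsto x)) δ hδ
    simpa [Real.dist_eq] using this
  filter_upwards [this] with x' hx'
  rw [Real.dist_eq]
  linarith [hF _ hx']

end Factor

/-- Separately continuous functions on the cube with the pointwise topology. -/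
abbrev SC (k : ℕ) : Type :=
  {f : (Fin k → unitInterval) → ℝ // ∀ (i : Fin k) (x : Fin k → unitInterval),
    Continuous fun t : unitInterval => f (Function.update x i t)}

/-- Jointly continuous functions are separately continuous. -/
def ofCont {k : ℕ} (f : C(Fin k → unitInterval, ℝ)) : SC k :=
  ⟨f, fun i _ => f.continuous.comp (continuous_const.update i continuous_id)⟩

theorem denseRange_coe (k : ℕ) :
    DenseRange fun f : C(Fin k → unitInterval, ℝ) => (f : (Fin k → unitInterval) → ℝ) := by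
  intro w
  rw [mem_closure_iff_nhds]
  intro U hU
  obtain ⟨F, δ, hδ, h⟩ := exists_basic hU
  have hfin : (F : Set (Fin k → unitInterval)).Finite := F.finite_toSet
  have : Finite (F : Set (Fin k → unitInterval)) := hfin
  obtain ⟨g, hg⟩ := ContinuousMap.exists_restrict_eq hfin.isClosed
    (⟨fun z : (F : Set (Fin k → unitInterval)) => w z, continuous_of_discreteTopology⟩ :
      C((F : Set (Fin k → unitInterval)), ℝ))
  refine ⟨g, h _ fun z hz => ?_, g, rfl⟩
  have := DFunLike.congr_fun hg ⟨z, hz⟩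
  simp only [ContinuousMap.restrict_apply, ContinuousMap.coe_mk] at this
  simp [this, hδ]

theorem dense_SC (k : ℕ) : Dense {f : (Fin k → unitInterval) → ℝ |
    ∀ (i : Fin k) (x : Fin k → unitInterval),
      Continuous fun t : unitInterval => f (Function.update x i t)} := by
  refine (denseRange_coe k).mono ?_
  rintro _ ⟨f, rfl⟩
  exact (ofCont f).2

theorem separable_SC (k : ℕ) : TopologicalSpace.SeparableSpace (SC k) := by
  have hc : Continuous (ofCont (k := k)) :=
    Continuous.subtype_mk (continuous_pi fun z => by fun_prop) _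
  refine DenseRange.separableSpace (f := ofCont (k := k)) ?_ hc
  intro y
  rw [closure_subtype, ← range_comp]
  exact denseRange_coe k y.1

theorem baireCl_eval {X : Type*} [TopologicalSpace X] {n : ℕ} {D : Set unitInterval}
    (hD : Dense D) (h : X → SC n)
    (hh : ∀ q : Fin n → unitInterval, (∀ i, q i ∈ D) → Continuous fun x => (h x).1 q)
    (y : Fin n → unitInterval) : BaireCl n fun x => (h x).1 y := by
  classical
  have key : ∀ S : Finset (Fin n), ∀ y : Fin n → unitInterval, (∀ i, i ∉ S → y i ∈ D) →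
      BaireCl S.card fun x => (h x).1 y := by
    intro S
    induction S using Finset.induction_on with
    | empty => exact fun y hy => hh y fun i => hy i (by simp)
    | insert i S hi ih =>
      intro y hy
      rw [Finset.card_insert_of_notMem hi]
      obtain ⟨d, hd, hd'⟩ := mem_closure_iff_seq_limit.1 (hD (y i))
      refine ⟨fun k x => (h x).1 (Function.update y i (d k)), fun k => ih _ fun j hj => ?_,
        fun x => ?_⟩
      · by_cases hji : j = i
        · subst hji
          simpa using hd k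
        · rw [Function.update_of_ne hji]
          exact hy j (by simp [hji, hj])
      · have := (((h x).2 i y).tendsto (y i)).comp hd'
        simpa [Function.comp_def] using this
  simpa using key Finset.univ y fun i hi => absurd (Finset.mem_univ i) hi

theorem exists_not_mem_countable {E : Set unitInterval} (hE : E.Countable) :
    ∃ a : unitInterval, a ∉ E := by
  by_contra hcon
  push Not at hcon
  have h1 : (univ : Set unitInterval).Countable := hE.mono fun a _ => hcon a
  have h2 : (Icc (0 : ℝ) 1).Countable := by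
    have := h1.image Subtype.val
    rwa [image_univ, Subtype.range_coe] at this
  have h3 := (h2.measure_zero MeasureTheory.volume)
  simp at h3

theorem main (n m : ℕ) (hnm : n < m) : ¬ ∃ T : SC m → SC n, IsEmbedding T := by
  classical
  rintro ⟨T, hT⟩
  obtain ⟨l, rfl⟩ : ∃ l, m = l + 1 := ⟨m - 1, by omega⟩
  have hnl : n ≤ l := by omega
  obtain ⟨A, hA, hAB⟩ := exists_not_sig l
  obtain ⟨F, hF0, hF1, hF2⟩ := exists_grid hAB
  obtain ⟨D, hDc, hDd⟩ := TopologicalSpace.exists_countable_dense unitInterval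
  have := separable_SC (l + 1)
  have hev : ∀ q : Fin n → unitInterval, Continuous fun f : SC (l + 1) => (T f).1 q := fun q =>
    (continuous_apply q).comp (continuous_subtype_val.comp hT.continuous)
  choose B hBc hB using fun q : Fin n → unitInterval =>
    exists_countable_factor (dense_SC (l + 1)) (hev q)
  have hDn : {q : Fin n → unitInterval | ∀ i, q i ∈ D}.Countable :=
    Set.countable_pi fun _ => hDc
  have hE : (⋃ q ∈ {q : Fin n → unitInterval | ∀ i, q i ∈ D}, ⋃ i : Fin (l + 1),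
      (fun z : Fin (l + 1) → unitInterval => z i) '' B q).Countable :=
    hDn.biUnion fun q _ => countable_iUnion fun i => (hBc q).image _
  obtain ⟨a, ha⟩ := exists_not_mem_countable hE
  let S : Type := {G : (Fin (l + 1) → Option ℕ) → ℝ // GridSC G}
  have : SecondCountableTopology S :=
    TopologicalSpace.Subtype.secondCountableTopology {G | GridSC G}
  let E : S → SC (l + 1) := fun G => ⟨extend a G.1, extend_sepCont a G.2⟩
  let Φ : (ℕ → Bool) → S := fun c => ⟨F c, hF2 c⟩
  have hEc : Continuous E :=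
    Continuous.subtype_mk (continuous_pi fun z => continuous_extend a (fun G : S => G.1) z
      fun b => (continuous_apply _).comp continuous_subtype_val) _
  have hBaire : ∀ y : Fin n → unitInterval, BaireCl l fun c => (T (E (Φ c))).1 y := by
    intro y
    refine (baireCl_eval hDd (fun c => T (E (Φ c))) (fun q hq => ?_) y).mono hnl
    refine continuous_of_factor (hB q) (fun c => E (Φ c)) fun z hz => ?_
    refine continuous_extend a F z fun b => hF1 _ fun i => pt_ne_none (fun hzi => ha ?_) _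
    exact mem_biUnion hq (mem_iUnion.2 ⟨i, z, hz, hzi⟩)
  have hO : IsOpen {f : SC (l + 1) | 1 / 2 < f.1 (fun _ => a)} :=
    isOpen_lt continuous_const ((continuous_apply _).comp continuous_subtype_val)
  obtain ⟨O', hO', hO''⟩ := hT.isInducing.isOpen_iff.1 hO
  obtain ⟨O, hOo, rfl⟩ := isOpen_induced_iff.1 hO'
  have hbas : ∀ G : {G : S // (T (E G)).1 ∈ O}, ∃ (P : Finset (Fin n → unitInterval)) (δ : ℝ),
      0 < δ ∧ ∀ v : (Fin n → unitInterval) → ℝ,
        (∀ y ∈ P, |v y - (T (E G.1)).1 y| < δ) → v ∈ O :=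
    fun G => exists_basic (hOo.mem_nhds G.2)
  choose P δ hδ hP using hbas
  let W : {G : S // (T (E G)).1 ∈ O} → Set S := fun G =>
    {H : S | ∀ y ∈ P G, |(T (E H)).1 y - (T (E G.1)).1 y| < δ G}
  have hWo : ∀ G, IsOpen (W G) := fun G =>
    (isOpen_basic _ (P G) (δ G)).preimage (continuous_subtype_val.comp (hT.continuous.comp hEc))
  obtain ⟨R, hRc, hR⟩ := TopologicalSpace.isOpen_iUnion_countable W hWo
  have hmem : ∀ c, c ∈ A ↔ (T (E (Φ c))).1 ∈ O := by
    intro c
    have h1 : (T (E (Φ c))).1 ∈ O ↔ 1 / 2 < (E (Φ c)).1 (fun _ => a) :=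
      Set.ext_iff.1 hO'' (E (Φ c))
    have h2 : (E (Φ c)).1 (fun _ => a) = ind A c := by
      change extend a (F c) (fun _ => a) = _
      rw [extend_centre, hF0]
    rw [h1, h2]
    by_cases hc : c ∈ A
    · simp only [ind, hc, if_true, true_iff]
      norm_num
    · simp only [ind, hc, if_false, false_iff]
      norm_num
  apply hA
  have hAeq : A = ⋃ G ∈ R, ⋂ y ∈ P G, (fun c => (T (E (Φ c))).1 y) ⁻¹'
      Metric.ball ((T (E G.1)).1 y) (δ G) := by
    ext c
    have h1 : c ∈ A ↔ Φ c ∈ ⋃ G, W G := by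
      rw [hmem, mem_iUnion]
      constructor
      · intro h
        exact ⟨⟨Φ c, h⟩, fun y _ => by simpa using hδ _⟩
      · rintro ⟨G, hG⟩
        exact hP G _ hG
    rw [h1, ← hR]
    simp only [mem_iUnion, mem_iInter, mem_preimage, Metric.mem_ball, Real.dist_eq, W,
      mem_ofPred_eq]
  rw [hAeq]
  exact sig_biUnion_countable hRc _ fun G => sig_biInter_finset _ _ fun y =>
    (hBaire y).sig_preimage Metric.isOpen_ball

end Pool.Agent.P.MP_1441be_gt
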